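import Pool.Agent.N640.WR.Stm

/-!
Project WR (helper640, MP_632be6_co), TT: even numbers slightly below `d` times the size of the
smallest orbit (helper767).
-/

set_option autoImplicit false

namespace Pool.Agent.N767.WR

open Finset SimpleGraph Pool.Agent.X76.Wr Pool.Agent.N640.WR

section

variable {W : Type} (G' : SimpleGraph W)

/-- linked in one step -/
def rr (a b : W) : Prop := Ob G' a b ∨ G'.Adj a b

lemma rr_symm {a b : W} (h : rr G' a b) : rr G' b a := by
  rcases h with ⟨φ, hφ⟩ | h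
  · left
    exact ⟨φ.symm, by rw [← hφ]; exact φ.symm_apply_apply a⟩
  · exact Or.inr h.symm

lemma lk_symm {a b : W} (h : Relation.ReflTransGen (rr G') a b) :
    Relation.ReflTransGen (rr G') b a := by
  induction h with
  | refl => exact Relation.ReflTransGen.refl
  | tail _ h ih => exact Relation.ReflTransGen.head (rr_symm G' h) ih

/-- the size of the smallest linked orbit -/
noncomputable def ms (v : W) : ℕ :=
  sInf {n | ∃ u, Relation.ReflTransGen (rr G') v u ∧ orb G' u = n}

lemma ms_mem (v : W) : ∃ u, Relation.ReflTransGen (rr G') v u ∧ orb G' u = ms G' v :=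
  Nat.sInf_mem (s := {n | ∃ u, Relation.ReflTransGen (rr G') v u ∧ orb G' u = n})
    ⟨orb G' v, v, Relation.ReflTransGen.refl, rfl⟩

lemma ms_le (v : W) : ms G' v ≤ orb G' v :=
  Nat.sInf_le ⟨v, Relation.ReflTransGen.refl, rfl⟩

lemma ms_eq {v w : W} (h : Relation.ReflTransGen (rr G') v w) : ms G' v = ms G' w := by
  unfold ms
  congr 1
  ext n
  constructor
  · rintro ⟨u, h1, h2⟩
    exact ⟨u, (lk_symm G' h).trans h1, h2⟩
  · rintro ⟨u, h1, h2⟩
    exact ⟨u, h.trans h1, h2⟩

end

theorem tt_ : S_TT := by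
  intro W _ G' d hd
  have horb : ∀ v, 1 ≤ orb G' v := by
    intro v
    exact (Set.ncard_pos (Set.toFinite _)).2 ⟨v, SimpleGraph.Iso.refl, rfl⟩
  have hms : ∀ v, 1 ≤ ms G' v := by
    intro v
    obtain ⟨u, _, h⟩ := ms_mem G' v
    rw [← h]
    exact horb u
  refine ⟨fun v => 2 * ((d * ms G' v - 1) / 2), fun v => by simp, ?_, ?_, ?_⟩
  · intro v w h
    have h1 : ms G' v = ms G' w := ms_eq G' (Relation.ReflTransGen.single h)
    simp only [h1]
  · intro v
    have h1 := Nat.mul_le_mul_left d (ms_le G' v)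
    have h2 : 1 ≤ d * ms G' v := Nat.mul_pos hd (hms v)
    show 2 * ((d * ms G' v - 1) / 2) + 1 ≤ d * orb G' v
    omega
  · intro v
    obtain ⟨u, h1, h2⟩ := ms_mem G' v
    refine ⟨u, h1, ?_⟩
    show d * orb G' u ≤ 2 * ((d * ms G' u - 1) / 2) + 2
    rw [h2, ms_eq G' h1]
    omega

end Pool.Agent.N767.WR
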